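import Mathlib
import Pool.Agent.W537.PC.Defs

/-!
# Period systems of the abelian varieties with complex multiplication, and their tensor classes
-/

namespace Pool.Agent.W519.G

open NumberField Pool.Agent.H204R3.CM Pool.Agent.W547.KB Pool.Agent.W537.PC

/-- A period system: nonzero complex numbers `per B φ`, for all CM pairs `B = (E, Φ)` and all
complex embeddings `φ` of `E`, with the following property: if the `2 k` pairs `B l` with
embeddings `φ l` are such that for every automorphism `τ` of the complex numbers exactly `k` of the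
embeddings `τ ∘ φ l` belong to the CM type of `B l`, then the product of the numbers
`per (B l) (φ l)` is an algebraic multiple of `(2 π i) ^ k`. -/
structure Periods where
  /-- the periods -/
  per : ∀ B : CMPair, (B.E →+* ℂ) → ℂ
  per_ne_zero : ∀ B φ, per B φ ≠ 0
  rel : ∀ (k : ℕ) (B : Fin (2 * k) → CMPair) (φ : ∀ l, (B l).E →+* ℂ),
    (∀ τ : ℂ ≃+* ℂ, Nat.card {l // (τ : ℂ →+* ℂ).comp (φ l) ∈ (B l).Φ} = k) →
      IsAlgebraic ℚ ((∏ l, per (B l) (φ l)) / (2 * Real.pi * Complex.I) ^ k)

/-- The product of two abelian varieties of CM type. -/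
abbrev two (A A' : CMPair) : CMAV := ⟨Fin 2, ![A, A']⟩

/-- The rational multilinear form `f` on the rational homology `H_1(X, ℚ)`, in variables indexed by
the finite set `κ`, is an element of the tensor power `H^1(X, ℚ)^{⊗ κ}`. It gives a
*de Rham-Betti class* of the Tate twist by `w` of this tensor power if `(2 π i) ^ w f` is a linear
combination with algebraic coefficients of the products of the eigenforms
`x ↦ per (E i, Φ i) φ * φ (x i)`, where `i` is a factor of `X` and `φ` a complex embedding of its
field `E i`. -/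
def IsDRB (P : Periods) (X : CMAV) {κ : Type} [Fintype κ] [DecidableEq κ] (w : ℤ)
    (f : MultilinearMap ℚ (fun _ : κ => X.H1) ℚ) : Prop :=
  ∃ c : (κ → Σ i : X.I, ((X.factor i).E →+* ℂ)) → ℂ, (∀ I, IsAlgebraic ℚ (c I)) ∧
    ∀ v : κ → X.H1, (2 * Real.pi * Complex.I) ^ w * ((f v : ℚ) : ℂ) =
      ∑ I, c I * ∏ l, (P.per (X.factor (I l).1) (I l).2 * (I l).2 (v l (I l).1))

/-- The element `f` of the tensor power `H^1(X, ℚ)^{⊗ κ}` is a *Hodge class* of its Tate twist by
`w`, that is, of type `(w, w)`: it extends to a real multilinear form `ψ` on the tangent space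
with `ψ (z u) = |z|^{2 w} ψ (u)` for all nonzero complex numbers `z`. -/
def IsHodgeTensor (X : CMAV) {κ : Type} (w : ℤ)
    (f : MultilinearMap ℚ (fun _ : κ => X.H1) ℚ) : Prop :=
  ∃ ψ : MultilinearMap ℝ (fun _ : κ => X.Tan) ℝ,
    (∀ v : κ → X.H1, ψ (fun l => X.per (v l)) = f v) ∧
      ∀ z : ℂ, z ≠ 0 → ∀ u : κ → X.Tan, ψ (fun l => z • u l) = Complex.normSq z ^ w * ψ u

end Pool.Agent.W519.G
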