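import Mathlib
import Pool.Agent.H340R2.LW

/-!
# Complex numbers up to algebraic factors
-/

namespace Pool.Agent.W519.G

noncomputable section

/-- the nonzero algebraic numbers -/
def Alg : Subgroup ℂˣ where
  carrier := {z | IsAlgebraic ℚ (z : ℂ)}
  one_mem' := by
    change IsAlgebraic ℚ ((1 : ℂˣ) : ℂ)
    rw [Units.val_one]
    exact isAlgebraic_one
  mul_mem' := by
    intro a b ha hb
    change IsAlgebraic ℚ ((a * b : ℂˣ) : ℂ)
    rw [Units.val_mul]
    exact ha.mul hb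
  inv_mem' := by
    intro a ha
    change IsAlgebraic ℚ ((a⁻¹ : ℂˣ) : ℂ)
    rw [Units.val_inv_eq_inv_val]
    exact ha.inv

/-- nonzero complex numbers up to algebraic factors, written additively -/
def Quo : Type := Additive (ℂˣ ⧸ Alg)

instance : AddCommGroup Quo := inferInstanceAs (AddCommGroup (Additive (ℂˣ ⧸ Alg)))

/-- the class of a unit -/
def clu : Additive ℂˣ →+ Quo := MonoidHom.toAdditive (QuotientGroup.mk' Alg)

/-- the class of a nonzero complex number (zero for the number zero) -/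
def cl (z : ℂ) : Quo := if h : z = 0 then 0 else clu (Additive.ofMul (Units.mk0 z h))

lemma cl_of_ne {z : ℂ} (h : z ≠ 0) :
    cl z = clu (Additive.ofMul (Units.mk0 z h)) := by
  rw [cl, dif_neg h]

lemma cl_mul {a b : ℂ} (ha : a ≠ 0) (hb : b ≠ 0) : cl (a * b) = cl a + cl b := by
  rw [cl_of_ne ha, cl_of_ne hb, cl_of_ne (mul_ne_zero ha hb), ← map_add, ← ofMul_mul]
  congr 2
  apply Units.ext
  simp

lemma cl_eq_zero {a : ℂ} (ha : a ≠ 0) : cl a = 0 ↔ IsAlgebraic ℚ a := by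
  rw [cl_of_ne ha]
  exact (QuotientGroup.eq_one_iff (N := Alg) (Units.mk0 a ha))

lemma cl_one : cl 1 = 0 := (cl_eq_zero one_ne_zero).2 isAlgebraic_one

lemma cl_inv {a : ℂ} (ha : a ≠ 0) : cl a⁻¹ = - cl a := by
  have h := cl_mul (inv_ne_zero ha) ha
  rw [inv_mul_cancel₀ ha, cl_one] at h
  exact eq_neg_of_add_eq_zero_left h.symm

lemma cl_div {a b : ℂ} (ha : a ≠ 0) (hb : b ≠ 0) : cl (a / b) = cl a - cl b := by
  rw [div_eq_mul_inv, cl_mul ha (inv_ne_zero hb), cl_inv hb, sub_eq_add_neg]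

lemma cl_pow {a : ℂ} (ha : a ≠ 0) (n : ℕ) : cl (a ^ n) = n • cl a := by
  induction n with
  | zero => rw [pow_zero, cl_one, zero_smul]
  | succ n ih => rw [pow_succ, cl_mul (pow_ne_zero n ha) ha, ih, succ_nsmul]

lemma cl_zpow {a : ℂ} (ha : a ≠ 0) (n : ℤ) : cl (a ^ n) = n • cl a := by
  cases n with
  | ofNat n => rw [Int.ofNat_eq_natCast, zpow_natCast, cl_pow ha, natCast_zsmul]
  | negSucc n =>
    rw [zpow_negSucc, cl_inv (pow_ne_zero _ ha), cl_pow ha, negSucc_zsmul]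

lemma cl_prod {ι : Type*} (s : Finset ι) (f : ι → ℂ) (h : ∀ i ∈ s, f i ≠ 0) :
    cl (∏ i ∈ s, f i) = ∑ i ∈ s, cl (f i) := by
  classical
  induction s using Finset.induction_on with
  | empty => rw [Finset.prod_empty, Finset.sum_empty, cl_one]
  | insert a s ha ih =>
    rw [Finset.prod_insert ha, Finset.sum_insert ha, cl_mul (h a (Finset.mem_insert_self a s))
      (Finset.prod_ne_zero_iff.2 fun i hi => h i (Finset.mem_insert_of_mem hi)),
      ih fun i hi => h i (Finset.mem_insert_of_mem hi)]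

lemma exists_rep (q : Quo) : ∃ a : ℂ, a ≠ 0 ∧ cl a = q := by
  obtain ⟨u, hu⟩ := QuotientGroup.mk_surjective (s := Alg) q
  refine ⟨u, u.ne_zero, ?_⟩
  rw [cl_of_ne u.ne_zero, Units.mk0_val]
  exact hu

/-- there is no torsion -/
lemma eq_zero_of_smul {q : Quo} {m : ℤ} (hm : m ≠ 0) (h : m • q = 0) : q = 0 := by
  obtain ⟨a, ha, rfl⟩ := exists_rep q
  rw [← cl_zpow ha, cl_eq_zero (zpow_ne_zero _ ha)] at h
  rw [cl_eq_zero ha]
  rcases Int.natAbs_eq m with h1 | h1
  · rw [h1, zpow_natCast] at h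
    exact h.of_pow (Int.natAbs_pos.2 hm)
  · rw [h1, zpow_neg, zpow_natCast] at h
    have h2 := h.inv
    rw [inv_inv] at h2
    exact h2.of_pow (Int.natAbs_pos.2 hm)

lemma eq_of_smul {p q : Quo} {m : ℤ} (hm : m ≠ 0) (h : m • p = m • q) : p = q := by
  rw [← sub_eq_zero, ← smul_sub] at h
  exact sub_eq_zero.1 (eq_zero_of_smul hm h)

/-- the class of `2 π i` -/
def tp : Quo := cl (2 * Real.pi * Complex.I)

lemma two_pi_ne : (2 * Real.pi * Complex.I : ℂ) ≠ 0 := Complex.two_pi_I_ne_zero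

lemma tp_ne_zero : tp ≠ 0 := by
  intro h
  rw [tp, cl_eq_zero two_pi_ne] at h
  have h1 : IsAlgebraic ℚ (Complex.I : ℂ) := Pool.Agent.H340R2.LW.isAlgebraic_I
  have h2 : IsAlgebraic ℚ (2 : ℂ) := by
    have := isAlgebraic_algebraMap (R := ℚ) (A := ℂ) 2
    simpa using this
  have h3 : (Real.pi : ℂ) = 2⁻¹ * (2 * Real.pi * Complex.I) * Complex.I⁻¹ := by
    field_simp
  have h4 : IsAlgebraic ℚ (Real.pi : ℂ) := by
    rw [h3]
    exact (h2.inv.mul h).mul h1.inv
  exact Pool.Agent.H340R2.LW.transcendental_pi_complex h4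

lemma smul_tp_eq_zero {m : ℤ} (h : m • tp = 0) : m = 0 := by
  by_contra hm
  exact tp_ne_zero (eq_zero_of_smul hm h)

end

end Pool.Agent.W519.G
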