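import Mathlib
import Pool.Agent.W519.G.Defs
import Pool.Agent.W519.G.Quo
import Pool.Agent.W547.KB.Canon

/-!
# Relations with integral exponents
-/

set_option autoImplicit false

namespace Pool.Agent.W519.G

open NumberField Pool.Agent.H204R3.CM Pool.Agent.W547.KB Pool.Agent.W537.PC

noncomputable section

/-- the conjugate embedding -/
def cj {E : Type} [Field E] (φ : E →+* ℂ) : E →+* ℂ := ComplexEmbedding.conjugate φ

/-- one if `τ φ` belongs to the CM type, zero otherwise -/
def ind (B : CMPair) (τ : ℂ ≃+* ℂ) (φ : B.E →+* ℂ) : ℤ := by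
  classical
  exact if (τ : ℂ →+* ℂ).comp φ ∈ B.Φ then 1 else 0

lemma comp_cj (B : CMPair) (τ : ℂ ≃+* ℂ) (φ : B.E →+* ℂ) :
    (τ : ℂ →+* ℂ).comp (cj φ) = cj ((τ : ℂ →+* ℂ).comp φ) := by
  ext x
  have h1 : ∀ ψ : B.E →+* ℂ, cj ψ x = ψ (IsCMField.complexConj B.E x) := by
    intro ψ
    rw [IsCMField.complexEmbedding_complexConj]
    rfl
  rw [RingHom.comp_apply, h1, h1]
  rfl

lemma ind_cj (B : CMPair) (τ : ℂ ≃+* ℂ) (φ : B.E →+* ℂ) : ind B τ (cj φ) = 1 - ind B τ φ := by
  classical
  unfold ind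
  rw [comp_cj]
  have h := B.isCMType ((τ : ℂ →+* ℂ).comp φ)
  by_cases h1 : (τ : ℂ →+* ℂ).comp φ ∈ B.Φ
  · have h2 : cj ((τ : ℂ →+* ℂ).comp φ) ∉ B.Φ := h.1 h1
    rw [if_neg h2, if_pos h1]
    norm_num
  · have h2 : cj ((τ : ℂ →+* ℂ).comp φ) ∈ B.Φ := by
      by_contra h3
      exact h1 (h.2 h3)
    rw [if_pos h2, if_neg h1]
    norm_num

variable (P : Periods)

/-- the class of a period -/
def Periods.c (B : CMPair) (φ : B.E →+* ℂ) : Quo := cl (P.per B φ)

/-- the property of the period system for families indexed by any finite type -/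
lemma rel_card {ι : Type} [Fintype ι] (k : ℕ) (hk : Fintype.card ι = 2 * k) (B : ι → CMPair)
    (φ : ∀ l, (B l).E →+* ℂ) (h : ∀ τ : ℂ ≃+* ℂ, ∑ l, ind (B l) τ (φ l) = k) :
    ∑ l, P.c (B l) (φ l) = (k : ℤ) • tp := by
  classical
  let e : Fin (2 * k) ≃ ι := (Fintype.equivFinOfCardEq hk).symm
  have h1 := P.rel k (fun l => B (e l)) (fun l => φ (e l)) (by
    intro τ
    have h2 := h τ
    rw [← Equiv.sum_comp e] at h2
    unfold ind at h2
    rw [Finset.sum_boole] at h2
    rw [Nat.card_eq_fintype_card, Fintype.card_subtype]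
    exact_mod_cast h2)
  have hne : (∏ l, P.per (B (e l)) (φ (e l))) ≠ 0 :=
    Finset.prod_ne_zero_iff.2 fun l _ => P.per_ne_zero _ _
  rw [← cl_eq_zero (div_ne_zero hne (pow_ne_zero _ two_pi_ne)),
    cl_div hne (pow_ne_zero _ two_pi_ne), cl_pow two_pi_ne, sub_eq_zero,
    cl_prod _ _ (fun l _ => P.per_ne_zero _ _)] at h1
  rw [natCast_zsmul, tp, ← h1]
  exact (Equiv.sum_comp e (fun l => P.c (B l) (φ l))).symm

lemma c_cj (B : CMPair) (φ : B.E →+* ℂ) : P.c B (cj φ) = tp - P.c B φ := by
  have h := rel_card P (ι := Fin 2) 1 (by simp) (fun _ => B) ![φ, cj φ] (by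
    intro τ
    rw [Fin.sum_univ_two]
    change ind B τ φ + ind B τ (cj φ) = _
    rw [ind_cj]
    push_cast
    ring)
  rw [Fin.sum_univ_two] at h
  change P.c B φ + P.c B (cj φ) = _ at h
  rw [Nat.cast_one, one_smul] at h
  rw [← h]
  abel

lemma ind_star (B : CMPair) (τ : ℂ ≃+* ℂ) (φ : B.E →+* ℂ) :
    ind B (τ.trans starRingAut) φ = 1 - ind B τ φ := by
  classical
  rw [← ind_cj]
  unfold ind
  rw [comp_cj]
  rfl

/-- the relations with integral exponents -/
theorem rel_int {ι : Type} [Fintype ι] (B : ι → CMPair) (φ : ∀ l, (B l).E →+* ℂ) (n : ι → ℤ)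
    (w : ℤ) (h : ∀ τ : ℂ ≃+* ℂ, ∑ l, n l * ind (B l) τ (φ l) = w) :
    ∑ l, n l • P.c (B l) (φ l) = w • tp := by
  classical
  -- the sum of the exponents
  have hsum : ∑ l, n l = 2 * w := by
    have h1 := h (RingEquiv.refl ℂ)
    have h2 := h ((RingEquiv.refl ℂ).trans starRingAut)
    simp only [ind_star, mul_sub, mul_one, Finset.sum_sub_distrib] at h2
    rw [h1] at h2
    linarith
  let m : ℤ := ∑ l, if n l < 0 then - n l else 0
  have hm : 0 ≤ m := Finset.sum_nonneg fun l _ => by
    by_cases h1 : n l < 0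
    · rw [if_pos h1]
      omega
    · rw [if_neg h1]
  have habs : ∑ l, ((n l).natAbs : ℤ) = 2 * (w + m) := by
    have h1 : ∀ l, ((n l).natAbs : ℤ) = n l + 2 * (if n l < 0 then - n l else 0) := by
      intro l
      by_cases h1 : n l < 0
      · rw [if_pos h1]
        omega
      · rw [if_neg h1]
        omega
    rw [Finset.sum_congr rfl (fun l _ => h1 l), Finset.sum_add_distrib, ← Finset.mul_sum, hsum]
    ring
  have hwm : 0 ≤ w + m := by
    have h1 : (0 : ℤ) ≤ ∑ l, ((n l).natAbs : ℤ) := Finset.sum_nonneg fun l _ => by positivity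
    omega
  let φ' : ∀ l, (B l).E →+* ℂ := fun l => if n l < 0 then cj (φ l) else φ l
  have h2 := rel_card P (ι := Σ l, Fin (n l).natAbs) (w + m).toNat (by
    rw [Fintype.card_sigma]
    simp only [Fintype.card_fin]
    have : ((∑ l, (n l).natAbs : ℕ) : ℤ) = ((2 * (w + m).toNat : ℕ) : ℤ) := by
      push_cast
      rw [Int.toNat_of_nonneg hwm]
      push_cast at habs
      exact habs
    exact_mod_cast this) (fun x => B x.1) (fun x => φ' x.1) (by
    intro τ
    rw [Fintype.sum_sigma, Int.toNat_of_nonneg hwm]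
    simp only [Finset.sum_const, Finset.card_univ, Fintype.card_fin, nsmul_eq_mul]
    have h3 : ∀ l, ((n l).natAbs : ℤ) * ind (B l) τ (φ' l) =
        n l * ind (B l) τ (φ l) + (if n l < 0 then - n l else 0) := by
      intro l
      by_cases h1 : n l < 0
      · simp only [φ', if_pos h1]
        rw [ind_cj]
        have : ((n l).natAbs : ℤ) = - n l := by omega
        rw [this]
        ring
      · simp only [φ', if_neg h1]
        have : ((n l).natAbs : ℤ) = n l := by omega
        rw [this]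
        ring
    rw [Finset.sum_congr rfl (fun l _ => h3 l), Finset.sum_add_distrib, h τ])
  rw [Fintype.sum_sigma, Int.toNat_of_nonneg hwm] at h2
  simp only [Finset.sum_const, Finset.card_univ, Fintype.card_fin] at h2
  have h3 : ∀ l, (n l).natAbs • P.c (B l) (φ' l) =
      n l • P.c (B l) (φ l) + (if n l < 0 then - n l else 0) • tp := by
    intro l
    rw [← natCast_zsmul]
    by_cases h1 : n l < 0
    · simp only [φ', if_pos h1]
      rw [c_cj]
      have : ((n l).natAbs : ℤ) = - n l := by omega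
      rw [this, smul_sub, neg_smul, neg_smul]
      abel
    · simp only [φ', if_neg h1]
      have : ((n l).natAbs : ℤ) = n l := by omega
      rw [this, zero_smul, add_zero]
  rw [Finset.sum_congr rfl (fun l _ => h3 l), Finset.sum_add_distrib, ← Finset.sum_smul,
    add_smul] at h2
  exact add_right_cancel h2

end

end Pool.Agent.W519.G
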