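import Mathlib
import Pool.Agent.W519.G.Rel
import Pool.Agent.W537.PC.Final
import Pool.Agent.H977R3.CM.Aut

/-!
# Monomials of periods all of whose conjugates are algebraic
-/

set_option autoImplicit false
set_option linter.unusedSectionVars false

namespace Pool.Agent.W519.G

open NumberField Pool.Agent.H204R3.CM Pool.Agent.W547.KB Pool.Agent.W537.PC

noncomputable section

/-- the CM type `Φ` of an abelian field `L` is determined by the periods up to algebraic factors -/
def Periods.Det (P : Periods) : Prop :=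
  ∀ (L : Type) [Field L] [NumberField L] [IsCMField L], IsAbelian L →
    ∀ (Φ Ψ : Set (L →+* ℂ)) (hΦ : IsCMType Φ) (hΨ : IsCMType Ψ),
      (∀ φ : L →+* ℂ, IsAlgebraic ℚ (P.per ⟨L, Φ, hΦ⟩ φ / P.per ⟨L, Ψ, hΨ⟩ φ)) → Φ = Ψ

section field

variable {L : Type} [Field L] [NumberField L] [IsCMField L] [IsGalois ℚ L] (j : L →+* ℂ)

/-- one if `j σ φ` belongs to the CM type, zero otherwise -/
def indL (B : CMPair) (σ : L ≃ₐ[ℚ] L) (φ : B.E →+* L) : ℤ := by
  classical
  exact if j.comp ((σ : L →+* L).comp φ) ∈ B.Φ then 1 else 0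

variable {j}

lemma indL_pos {B : CMPair} {σ : L ≃ₐ[ℚ] L} {φ : B.E →+* L}
    (h : j.comp ((σ : L →+* L).comp φ) ∈ B.Φ) : indL j B σ φ = 1 := by
  unfold indL
  rw [if_pos h]

lemma indL_neg {B : CMPair} {σ : L ≃ₐ[ℚ] L} {φ : B.E →+* L}
    (h : j.comp ((σ : L →+* L).comp φ) ∉ B.Φ) : indL j B σ φ = 0 := by
  unfold indL
  rw [if_neg h]

lemma ind_eq {B : CMPair} {τ : ℂ ≃+* ℂ} {σ : L ≃ₐ[ℚ] L} (h : ∀ x, τ (j x) = j (σ x))
    (φ : B.E →+* L) : ind B τ (j.comp φ) = indL j B σ φ := by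
  unfold ind indL
  have : (τ : ℂ →+* ℂ).comp (j.comp φ) = j.comp ((σ : L →+* L).comp φ) := by
    ext x
    exact h _
  rw [this]

lemma indL_cc (B : CMPair) (σ : L ≃ₐ[ℚ] L) (φ : B.E →+* L) :
    indL j B (cc L * σ) φ = 1 - indL j B σ φ := by
  have h1 : j.comp (((cc L * σ : L ≃ₐ[ℚ] L) : L →+* L).comp φ) =
      ComplexEmbedding.conjugate (j.comp ((σ : L →+* L).comp φ)) := by
    ext y
    change j (cc L (σ (φ y))) = _
    rw [emb_cc, ComplexEmbedding.conjugate_coe_eq]
    rfl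
  unfold indL
  rw [h1]
  have h := B.isCMType (j.comp ((σ : L →+* L).comp φ))
  by_cases h2 : j.comp ((σ : L →+* L).comp φ) ∈ B.Φ
  · rw [if_neg (h.1 h2), if_pos h2]
    norm_num
  · have h3 : ComplexEmbedding.conjugate (j.comp ((σ : L →+* L).comp φ)) ∈ B.Φ := by
      by_contra h3
      exact h2 (h.2 h3)
    rw [if_pos h3, if_neg h2]
    norm_num

lemma indL_cases (B : CMPair) (σ : L ≃ₐ[ℚ] L) (φ : B.E →+* L) :
    indL j B σ φ = 0 ∨ indL j B σ φ = 1 := by
  unfold indL
  by_cases h2 : j.comp ((σ : L →+* L).comp φ) ∈ B.Φ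
  · rw [if_pos h2]
    exact Or.inr rfl
  · rw [if_neg h2]
    exact Or.inl rfl

variable (P : Periods)

/-- the class of a period, with an embedding into `L` -/
def Periods.cL (P : Periods) (j : L →+* ℂ) (B : CMPair) (σ : L ≃ₐ[ℚ] L) (φ : B.E →+* L) : Quo :=
  P.c B (j.comp ((σ : L →+* L).comp φ))

lemma c_eq {B : CMPair} {τ : ℂ ≃+* ℂ} {σ : L ≃ₐ[ℚ] L} (h : ∀ x, τ (j x) = j (σ x))
    (φ : B.E →+* L) : P.c B ((τ : ℂ →+* ℂ).comp (j.comp φ)) = P.cL j B σ φ := by
  unfold Periods.cL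
  have : (τ : ℂ →+* ℂ).comp (j.comp φ) = j.comp ((σ : L →+* L).comp φ) := by
    ext x
    exact h _
  rw [this]

/-- the relations, with embeddings into `L` -/
lemma relL {ι : Type} [Fintype ι] (B : ι → CMPair) (σ : ι → (L ≃ₐ[ℚ] L))
    (φ : ∀ l, (B l).E →+* L) (n : ι → ℤ) (w : ℤ)
    (h : ∀ g : L ≃ₐ[ℚ] L, ∑ l, n l * indL j (B l) (g * σ l) (φ l) = w) :
    ∑ l, n l • P.cL j (B l) (σ l) (φ l) = w • tp := by
  refine rel_int P B (fun l => j.comp ((σ l : L →+* L).comp (φ l))) n w fun τ => ?_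
  obtain ⟨g, hg⟩ := Pool.Agent.H977R3.CM.exists_gal j τ
  rw [← h g]
  refine Finset.sum_congr rfl fun l _ => ?_
  rw [ind_eq hg]
  rfl

lemma cL_cc (B : CMPair) (σ : L ≃ₐ[ℚ] L) (φ : B.E →+* L) :
    P.cL j B (cc L * σ) φ = tp - P.cL j B σ φ := by
  unfold Periods.cL
  rw [← c_cj]
  congr 1
  ext y
  change j (cc L (σ (φ y))) = _
  rw [emb_cc]
  rfl

/-- the main argument, over a common field -/
theorem main_field (det : P.Det) (hL : IsAbelian L) {ι : Type} [Fintype ι] [Nonempty ι]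
    (B : ι → CMPair) (φ : ∀ l, (B l).E →+* L) (n : ι → ℤ) (w : ℤ)
    (h : ∀ g : L ≃ₐ[ℚ] L, ∑ l, n l • P.cL j (B l) g (φ l) = w • tp) (g0 : L ≃ₐ[ℚ] L) :
    ∑ l, n l * indL j (B l) g0 (φ l) = w := by
  classical
  set H : (L ≃ₐ[ℚ] L) → ℤ := fun g => ∑ l, n l * indL j (B l) g (φ l) with hH
  set N0 : ℤ := ∑ l, n l with hN0
  have hHcc : ∀ g, H (cc L * g) = N0 - H g := by
    intro g
    simp only [hH, indL_cc, mul_sub, mul_one, Finset.sum_sub_distrib, hN0]
  have hcomm : ∀ a b : L ≃ₐ[ℚ] L, a * b = b * a := hL.2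
  have key : ∀ g, 2 * H g = N0 := by
    by_contra hcon
    push Not at hcon
    obtain ⟨g1, hg1⟩ := hcon
    set Bf : (L ≃ₐ[ℚ] L) → ℤ := fun g => 2 * H g - N0 with hBf
    have hodd : ∀ g, Bf (cc L * g) = - Bf g := by
      intro g
      simp only [hBf, hHcc]
      ring
    have hB0 : Bf ≠ 0 := fun h0 => hg1 (by
      have := congrFun h0 g1
      simp only [hBf, Pi.zero_apply] at this
      linarith)
    obtain ⟨m, N, u, hN, hu0, hval, hodd', hrel⟩ := exists_small' hcomm (cc L) Bf hodd hB0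
    obtain ⟨l0⟩ := ‹Nonempty ι›
    let S : Set (L ≃ₐ[ℚ] L) := {σ | u σ = 1 ∨ (u σ = 0 ∧ indL j (B l0) σ (φ l0) = 1)}
    let S' : Set (L ≃ₐ[ℚ] L) := {σ | u σ = -1 ∨ (u σ = 0 ∧ indL j (B l0) σ (φ l0) = 1)}
    have hS : IsHalf S := by
      intro σ
      change (u σ = 1 ∨ (u σ = 0 ∧ indL j (B l0) σ (φ l0) = 1)) ↔
        ¬ (u (cc L * σ) = 1 ∨ (u (cc L * σ) = 0 ∧ indL j (B l0) (cc L * σ) (φ l0) = 1))
      rw [hodd', indL_cc]
      have h1 := hval σ
      have h2 := indL_cases (j := j) (B l0) σ (φ l0)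
      omega
    have hS' : IsHalf S' := by
      intro σ
      change (u σ = -1 ∨ (u σ = 0 ∧ indL j (B l0) σ (φ l0) = 1)) ↔
        ¬ (u (cc L * σ) = -1 ∨ (u (cc L * σ) = 0 ∧ indL j (B l0) (cc L * σ) (φ l0) = 1))
      rw [hodd', indL_cc]
      have h1 := hval σ
      have h2 := indL_cases (j := j) (B l0) σ (φ l0)
      omega
    let B1 : CMPair := ⟨L, typeOf j S, isCMType_typeOf j hS⟩
    let B2 : CMPair := ⟨L, typeOf j S', isCMType_typeOf j hS'⟩
    have hdiff : ∀ σ, indL j B1 σ (RingHom.id L) - indL j B2 σ (RingHom.id L) = u σ := by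
      intro σ
      have e1 : indL j B1 σ (RingHom.id L) = if σ ∈ S then 1 else 0 := by
        have : j.comp ((σ : L →+* L).comp (RingHom.id L)) ∈ B1.Φ ↔ σ ∈ S := mem_typeOf j S σ
        by_cases hs : σ ∈ S
        · rw [if_pos hs, indL_pos (this.2 hs)]
        · rw [if_neg hs, indL_neg fun h => hs (this.1 h)]
      have e2 : indL j B2 σ (RingHom.id L) = if σ ∈ S' then 1 else 0 := by
        have : j.comp ((σ : L →+* L).comp (RingHom.id L)) ∈ B2.Φ ↔ σ ∈ S' := mem_typeOf j S' σ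
        by_cases hs : σ ∈ S'
        · rw [if_pos hs, indL_pos (this.2 hs)]
        · rw [if_neg hs, indL_neg fun h => hs (this.1 h)]
      rw [e1, e2]
      have h1 := hval σ
      have h2 := indL_cases (j := j) (B l0) σ (φ l0)
      have hs : σ ∈ S ↔ (u σ = 1 ∨ (u σ = 0 ∧ indL j (B l0) σ (φ l0) = 1)) := Iff.rfl
      have hs' : σ ∈ S' ↔ (u σ = -1 ∨ (u σ = 0 ∧ indL j (B l0) σ (φ l0) = 1)) := Iff.rfl
      by_cases a1 : σ ∈ S <;> by_cases a2 : σ ∈ S' <;> simp only [a1, a2, if_true, if_false] <;>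
        rw [hs] at a1 <;> rw [hs'] at a2 <;> omega
    -- the relation between the periods of the two types
    set M : ℤ := ∑ s, m s with hM
    have hD : ∀ g : L ≃ₐ[ℚ] L,
        (N : ℤ) • (P.cL j B1 g (RingHom.id L) - P.cL j B2 g (RingHom.id L)) =
          (2 * w * M - N0 * M) • tp := by
      intro g
      let ι' : Type := Fin 2 ⊕ ((L ≃ₐ[ℚ] L) × ι)
      let B' : ι' → CMPair := Sum.elim ![B1, B2] (fun x => B x.2)
      let σ' : ι' → (L ≃ₐ[ℚ] L) := Sum.elim (fun _ => g) (fun x => x.1 * g)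
      let φ' : ∀ x, (B' x).E →+* L := fun x => Sum.rec (motive := fun x => (B' x).E →+* L)
        (fun i => Fin.cases (motive := fun i => (![B1, B2] i).E →+* L) (RingHom.id L)
          (fun i => Fin.cases (motive := fun i => (![B1, B2] i.succ).E →+* L) (RingHom.id L)
            (fun i => i.elim0) i) i) (fun x => φ x.2) x
      let n' : ι' → ℤ := Sum.elim ![(N : ℤ), -(N : ℤ)] (fun x => - (2 * m x.1 * n x.2))
      have h1 := relL (j := j) P B' σ' φ' n' (- (N0 * M)) (by
        intro a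
        rw [Fintype.sum_sum_type, Fin.sum_univ_two, Fintype.sum_prod_type]
        change (N : ℤ) * indL j B1 (a * g) (RingHom.id L) +
          (-(N : ℤ)) * indL j B2 (a * g) (RingHom.id L) +
          ∑ s : L ≃ₐ[ℚ] L, ∑ l, (-(2 * m s * n l)) * indL j (B l) (a * (s * g)) (φ l) = _
        have h2 : ∀ s : L ≃ₐ[ℚ] L,
            ∑ l, (-(2 * m s * n l)) * indL j (B l) (a * (s * g)) (φ l) =
              - (m s * Bf (s * (a * g))) - m s * N0 := by
          intro s
          have h3 : a * (s * g) = s * (a * g) := by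
            rw [← mul_assoc, hcomm a s, mul_assoc]
          rw [h3]
          have h4 : ∑ l, (-(2 * m s * n l)) * indL j (B l) (s * (a * g)) (φ l) =
              - (2 * m s) * H (s * (a * g)) := by
            simp only [hH]
            rw [Finset.mul_sum]
            exact Finset.sum_congr rfl fun l _ => by ring
          rw [h4]
          simp only [hBf]
          ring
        rw [Finset.sum_congr rfl (fun s _ => h2 s), Finset.sum_sub_distrib, Finset.sum_neg_distrib,
          hrel, ← Finset.sum_mul, ← hM, ← hdiff (a * g)]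
        ring)
      rw [Fintype.sum_sum_type, Fin.sum_univ_two, Fintype.sum_prod_type] at h1
      change (N : ℤ) • P.cL j B1 g (RingHom.id L) +
        (-(N : ℤ)) • P.cL j B2 g (RingHom.id L) +
        ∑ s : L ≃ₐ[ℚ] L, ∑ l, (-(2 * m s * n l)) • P.cL j (B l) (s * g) (φ l) = _ at h1
      have h5 : ∀ s : L ≃ₐ[ℚ] L, ∑ l, (-(2 * m s * n l)) • P.cL j (B l) (s * g) (φ l) =
          (-(2 * m s * w)) • tp := by
        intro s
        have h6 := congrArg (fun q => (-(2 * m s)) • q) (h (s * g))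
        simp only [Finset.smul_sum, smul_smul] at h6
        rw [show -(2 * m s * w) = -(2 * m s) * w by ring, ← h6]
        exact Finset.sum_congr rfl fun l _ => by rw [show -(2 * m s * n l) = -(2 * m s) * n l by ring]
      rw [Finset.sum_congr rfl (fun s _ => h5 s), ← Finset.sum_smul] at h1
      have h7 : ∑ s, (-(2 * m s * w)) = - (2 * w * M) := by
        rw [hM, Finset.mul_sum, ← Finset.sum_neg_distrib]
        exact Finset.sum_congr rfl fun s _ => by ring
      rw [h7] at h1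
      rw [smul_sub, show (2 * w * M - N0 * M) = -(N0 * M) - (-(2 * w * M)) by ring, sub_smul, ← h1,
        neg_smul]
      abel
    have hr : (2 * w * M - N0 * M) = 0 := by
      have e1 := hD 1
      have e2 := hD (cc L * 1)
      rw [cL_cc, cL_cc] at e2
      have e3 : ((2 * w * M - N0 * M) + (2 * w * M - N0 * M)) • tp = 0 := by
        rw [add_smul]
        nth_rewrite 1 [← e1]
        rw [← e2, ← smul_add]
        have : P.cL j B1 1 (RingHom.id L) - P.cL j B2 1 (RingHom.id L) +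
          (tp - P.cL j B1 1 (RingHom.id L) - (tp - P.cL j B2 1 (RingHom.id L))) = 0 := by abel
        rw [this, smul_zero]
      have := smul_tp_eq_zero e3
      linarith
    have hc : ∀ g : L ≃ₐ[ℚ] L, P.cL j B1 g (RingHom.id L) = P.cL j B2 g (RingHom.id L) := by
      intro g
      have h1 := hD g
      rw [hr, zero_smul] at h1
      exact sub_eq_zero.1 (eq_zero_of_smul (by exact_mod_cast hN.ne') h1)
    have hΨ : typeOf j S = typeOf j S' := by
      refine det L hL _ _ (isCMType_typeOf j hS) (isCMType_typeOf j hS') fun ψ => ?_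
      obtain ⟨g, rfl⟩ := comp_surjective j ψ
      have hp1 := P.per_ne_zero B1 (j.comp (g : L →+* L))
      have hp2 := P.per_ne_zero B2 (j.comp (g : L →+* L))
      rw [← cl_eq_zero (div_ne_zero hp1 hp2), cl_div hp1 hp2, sub_eq_zero]
      exact hc g
    have hSS : ∀ σ, σ ∈ S ↔ σ ∈ S' := by
      intro σ
      rw [← mem_typeOf j S σ, ← mem_typeOf j S' σ, hΨ]
    apply hu0
    funext σ
    have h1 := hSS σ
    have h2 := hval σ
    change (u σ = 1 ∨ (u σ = 0 ∧ indL j (B l0) σ (φ l0) = 1)) ↔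
      (u σ = -1 ∨ (u σ = 0 ∧ indL j (B l0) σ (φ l0) = 1)) at h1
    change u σ = 0
    omega
  -- conclusion
  have h1 := relL (j := j) P B (fun _ => 1) φ n (H g0) (by
    intro g
    have e1 := key g
    have e2 := key g0
    simp only [mul_one]
    change H g = H g0
    linarith)
  rw [h 1] at h1
  have h2 : (w - H g0) • tp = 0 := by rw [sub_smul, h1, sub_self]
  have h3 := smul_tp_eq_zero h2
  change H g0 = w
  linarith

end field

/-- Monomials in the periods of abelian varieties with complex multiplication by abelian fields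
all of whose conjugates are algebraic multiples of `(2 π i) ^ w` are Hodge monomials. -/
theorem main (P : Periods) (det : P.Det) {ι : Type} [Fintype ι] (B : ι → CMPair)
    (hB : ∀ i, IsAbelian (B i).E) (φ : ∀ l, (B l).E →+* ℂ) (n : ι → ℤ) (w : ℤ)
    (h : ∀ τ : ℂ ≃+* ℂ, ∑ l, n l • P.c (B l) ((τ : ℂ →+* ℂ).comp (φ l)) = w • tp)
    (τ : ℂ ≃+* ℂ) : ∑ l, n l * ind (B l) τ (φ l) = w := by
  classical
  rcases isEmpty_or_nonempty ι with hι | hι
  · have h1 := h τ
    rw [Finset.univ_eq_empty, Finset.sum_empty] at h1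
    rw [Finset.univ_eq_empty, Finset.sum_empty]
    exact (smul_tp_eq_zero h1.symm).symm
  · let X : CMAV := ⟨ι, B⟩
    have hX : Nonempty X.I := hι
    obtain ⟨L, _, _, _, _, j, hj, hgen⟩ := exists_cm' X
    have hL : IsAbelian L := ⟨inferInstance, comm_closure j X hB hgen⟩
    choose ψ hψ using fun l => hj l (φ l)
    obtain ⟨g0, hg0⟩ := Pool.Agent.H977R3.CM.exists_gal j τ
    have h1 := main_field P det hL (j := j) B ψ n w (by
      intro g
      obtain ⟨τ', hτ'⟩ := Pool.Agent.H977R3.CM.exists_aut j (g : L ≃+* L)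
      rw [← h τ']
      refine Finset.sum_congr rfl fun l _ => ?_
      rw [← hψ l, c_eq P (σ := g) hτ']) g0
    rw [← h1]
    refine Finset.sum_congr rfl fun l _ => ?_
    rw [← hψ l, ind_eq hg0]

end

end Pool.Agent.W519.G
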