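import Mathlib
import Pool.Agent.W519.G.Defs

/-!
# Characters trivial on the groups of de Rham-Betti and of Hodge tensors
-/

set_option autoImplicit false
set_option linter.unusedSectionVars false

namespace Pool.Agent.W519.G

open NumberField Pool.Agent.H204R3.CM Pool.Agent.W547.KB Pool.Agent.W537.PC

/-- The group of characters of the torus `T_X`, the product over the factors `(E i, Φ i)` of `X` of
the tori `Res_{E i / ℚ} G_m`: integral functions on the pairs of a factor `i` and a complex
embedding of `E i`. -/
abbrev Chars (X : CMAV) : Type := (Σ i : X.I, ((X.factor i).E →+* ℂ)) → ℤ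

/-- The conjugate of a character under an automorphism of the complex numbers. -/
def conjChar {X : CMAV} (τ : ℂ ≃+* ℂ) (n : Chars X) : Chars X :=
  fun x => n ⟨x.1, (τ.symm : ℂ →+* ℂ).comp x.2⟩

/-- The monomial in the periods belonging to a character. -/
noncomputable def monomial (P : Periods) {X : CMAV} (n : Chars X) : ℂ :=
  ∏ x, P.per (X.factor x.1) x.2 ^ n x

/-- The characters of `T_X` whose monomial is an algebraic number. They are the characters of `T_X`
defining the smallest torsor, over the field of algebraic numbers, which contains the comparison
isomorphism of `h^1(X)`. -/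
def algChars (P : Periods) (X : CMAV) : Set (Chars X) := {n | IsAlgebraic ℚ (monomial P n)}

/-- The characters of `T_X` trivial on the group of the de Rham-Betti realization of `h^1(X)`:
the monomials of all conjugates are algebraic numbers. -/
def drbChars (P : Periods) (X : CMAV) : Set (Chars X) :=
  {n | ∀ τ : ℂ ≃+* ℂ, IsAlgebraic ℚ (monomial P (conjChar τ n))}

open Classical in
/-- The characters of `T_X` trivial on the Mumford-Tate group of `X`: the characters `n` such that
the composite of every conjugate of `n` with the Hodge cocharacter is trivial, that is, the sum of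
the values of the conjugate over the embeddings in the CM types is zero. -/
def mtChars (X : CMAV) : Set (Chars X) :=
  {n | ∀ τ : ℂ ≃+* ℂ, ∑ x, (if x.2 ∈ (X.factor x.1).Φ then conjChar τ n x else 0) = 0}

/-- For every abelian CM field `L`, two CM types of `L` are equal if for every complex embedding
of `L` the two periods differ by an algebraic factor, that is, if `h^1(A(L, Φ))` and
`h^1(A(L, Ψ))` have isomorphic de Rham-Betti realizations with action of `L`. -/
def TypeDetermined (P : Periods) : Prop :=
  ∀ (L : Type) [Field L] [NumberField L] [IsCMField L], IsAbelian L →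
    ∀ (Φ Ψ : Set (L →+* ℂ)) (hΦ : IsCMType Φ) (hΨ : IsCMType Ψ),
      (∀ φ : L →+* ℂ, IsAlgebraic ℚ (P.per ⟨L, Φ, hΦ⟩ φ / P.per ⟨L, Ψ, hΨ⟩ φ)) → Φ = Ψ

end Pool.Agent.W519.G
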