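import Mathlib
import Pool.Agent.W519.G.Main
import Pool.Agent.H204R3.CM.Nondeg

/-!
# Tensor classes
-/

set_option autoImplicit false
set_option linter.unusedSectionVars false

namespace Pool.Agent.W519.G

open NumberField Pool.Agent.H204R3.CM Pool.Agent.W547.KB Pool.Agent.W537.PC

noncomputable section

variable {X : CMAV} {κ : Type} [Fintype κ] [DecidableEq κ]

/-- complex coefficients determine the form -/
theorem coeff_unique {b b' : (κ → Wt X ℂ) → ℂ}
    (h : ∀ v : κ → X.H1, ∑ I, b I * ∏ l, (I l).2 (v l (I l).1) =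
      ∑ I, b' I * ∏ l, (I l).2 (v l (I l).1)) : b = b' := by
  classical
  have h1 : formOf (E := fun i => (X.factor i).E) (fun i : X.I => i) b =
      formOf (E := fun i => (X.factor i).E) (fun i : X.I => i) b' := by
    refine ext_chi (X := X) fun v => ?_
    rw [formOf_apply, formOf_apply]
    exact h v
  funext I
  have h2 := DFunLike.congr_fun h1 (fun l => Pi.single (I l) (1 : ℂ))
  rw [formOf_single, formOf_single] at h2
  simpa using h2

/-- the action of an automorphism on multi-indices -/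
def actI (τ : ℂ ≃+* ℂ) (I : κ → Wt X ℂ) : κ → Wt X ℂ :=
  fun l => ⟨(I l).1, (τ : ℂ →+* ℂ).comp (I l).2⟩

/-- the action as a bijection -/
def actE (τ : ℂ ≃+* ℂ) : (κ → Wt X ℂ) ≃ (κ → Wt X ℂ) where
  toFun := actI τ
  invFun := actI τ.symm
  left_inv I := by
    funext l
    refine Sigma.ext rfl (heq_of_eq ?_)
    ext x
    exact τ.symm_apply_apply _
  right_inv I := by
    funext l
    refine Sigma.ext rfl (heq_of_eq ?_)
    ext x
    exact τ.apply_symm_apply _

/-- the complex coefficients of a rational form are algebraic numbers, permuted by the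
automorphisms of the complex numbers -/
theorem exists_coeff (f : MultilinearMap ℚ (fun _ : κ => X.H1) ℚ) :
    ∃ b : (κ → Wt X ℂ) → ℂ, (∀ I, IsAlgebraic ℚ (b I)) ∧
      (∀ v : κ → X.H1, ((f v : ℚ) : ℂ) = ∑ I, b I * ∏ l, (I l).2 (v l (I l).1)) ∧
      ∀ (τ : ℂ ≃+* ℂ) (I : κ → Wt X ℂ), b (actI τ I) = τ (b I) := by
  classical
  obtain ⟨L, hN, hG, j, hj⟩ := exists_galois (fun i : X.I => (X.factor i).E)
  obtain ⟨c, hc⟩ := form_coeff (E := fun i => (X.factor i).E) (fun i : X.I => i) j hj f
  let e : (κ → Wt X L) ≃ (κ → Wt X ℂ) :=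
    Equiv.arrowCongr (Equiv.refl κ) (xEquiv (E := fun i => (X.factor i).E) (fun i : X.I => i) j hj)
  have hb : ∀ v : κ → X.H1, ((f v : ℚ) : ℂ) =
      ∑ I, j (c (e.symm I)) * ∏ l, (I l).2 (v l (I l).1) := by
    intro v
    have h2 := congrArg j (hc v)
    rw [map_ratCast, map_sum] at h2
    rw [h2]
    refine Fintype.sum_equiv e _ _ fun I => ?_
    rw [map_mul, map_prod, Equiv.symm_apply_apply]
    rfl
  refine ⟨fun I => j (c (e.symm I)), fun I => ?_, hb, fun τ I => ?_⟩
  · have h1 : IsAlgebraic ℚ (c (e.symm I)) := Algebra.IsAlgebraic.isAlgebraic _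
    exact h1.algHom j.toRatAlgHom
  · have h1 : (fun I' => j (c (e.symm I'))) = fun I' => τ (j (c (e.symm ((actE τ).symm I')))) := by
      refine coeff_unique fun v => ?_
      rw [← hb v]
      have h2 := congrArg τ (hb v)
      rw [map_ratCast, map_sum] at h2
      rw [h2]
      refine Fintype.sum_equiv (actE τ) _ _ fun I => ?_
      rw [map_mul, map_prod, Equiv.symm_apply_apply]
      rfl
    have h3 := congrFun h1 (actI τ I)
    change j (c (e.symm (actI τ I))) = τ (j (c (e.symm I)))
    rw [h3]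
    congr 4
    exact (actE τ).symm_apply_apply I

/-- the value of the multiplication by `z` on the coordinate `x` -/
def zx (z : ℂ) (x : Wt X ℂ) : ℂ := by
  classical
  exact if x.2 ∈ (X.factor x.1).Φ then z else starRingEnd ℂ z

/-- the number of the coordinates in the CM types, after an automorphism -/
def cnt (τ : ℂ ≃+* ℂ) (I : κ → Wt X ℂ) : ℤ := ∑ l, ind (X.factor (I l).1) τ (I l).2

lemma cnt_actI (τ : ℂ ≃+* ℂ) (I : κ → Wt X ℂ) :
    cnt (RingEquiv.refl ℂ) (actI τ I) = cnt τ I := by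
  unfold cnt
  refine Finset.sum_congr rfl fun l _ => ?_
  unfold ind actI
  rfl

lemma prod_zx (z : ℂ) (w : ℤ) (I : κ → Wt X ℂ)
    (h1 : cnt (RingEquiv.refl ℂ) I = w) (h2 : (Fintype.card κ : ℤ) = 2 * w) :
    ∏ l, zx z (I l) = ((Complex.normSq z ^ w : ℝ) : ℂ) := by
  classical
  unfold zx
  rw [Finset.prod_ite, Finset.prod_const, Finset.prod_const]
  have h3 : ((Finset.univ.filter fun l => (I l).2 ∈ (X.factor (I l).1).Φ).card : ℤ) = w := by
    rw [← h1]
    unfold cnt ind
    rw [Finset.card_filter]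
    push_cast
    refine Finset.sum_congr rfl fun l _ => ?_
    rfl
  have h4 : ((Finset.univ.filter fun l => (I l).2 ∉ (X.factor (I l).1).Φ).card : ℤ) = w := by
    have h5 := Finset.card_filter_add_card_filter_not (s := (Finset.univ : Finset κ))
      (fun l => (I l).2 ∈ (X.factor (I l).1).Φ)
    rw [Finset.card_univ] at h5
    have h6 : ((Finset.univ.filter fun l => (I l).2 ∈ (X.factor (I l).1).Φ).card : ℤ) +
      ((Finset.univ.filter fun l => (I l).2 ∉ (X.factor (I l).1).Φ).card : ℤ) =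
        (Fintype.card κ : ℤ) := by exact_mod_cast h5
    omega
  rw [← zpow_natCast, ← zpow_natCast, h3, h4, ← mul_zpow, Complex.mul_conj]
  push_cast
  rfl

/-- a form with balanced coefficients is a Hodge class -/
theorem hodge_of_cnt (f : MultilinearMap ℚ (fun _ : κ => X.H1) ℚ) (w : ℤ)
    (b : (κ → Wt X ℂ) → ℂ)
    (hb : ∀ v : κ → X.H1, ((f v : ℚ) : ℂ) = ∑ I, b I * ∏ l, (I l).2 (v l (I l).1))
    (h1 : ∀ I, b I ≠ 0 → cnt (RingEquiv.refl ℂ) I = w)
    (h2 : ∀ I, b I ≠ 0 → (Fintype.card κ : ℤ) = 2 * w) : IsHodgeTensor X w f := by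
  classical
  let G : MultilinearMap ℝ (fun _ : κ => X.Tan) ℂ :=
    ((formOf (E := fun i => (X.factor i).E) (fun i : X.I => i) b).restrictScalars
      ℝ).compLinearMap (fun _ => thX X)
  have hG : ∀ u, G u = ∑ I, b I * ∏ l, thX X (u l) (I l) := by
    intro u
    change formOf (E := fun i => (X.factor i).E) (fun i : X.I => i) b (fun l => thX X (u l)) = _
    rw [formOf_apply]
  refine ⟨Complex.reLm.compMultilinearMap G, fun v => ?_, fun z hz u => ?_⟩
  · change (G fun l => X.per (v l)).re = _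
    rw [hG]
    simp only [thX_per]
    rw [← hb v]
    simp
  · change (G fun l => z • u l).re = Complex.normSq z ^ w * (G u).re
    have h3 : (G fun l => z • u l) = ((Complex.normSq z ^ w : ℝ) : ℂ) * G u := by
      rw [hG, hG, Finset.mul_sum]
      refine Finset.sum_congr rfl fun I _ => ?_
      by_cases hI : b I = 0
      · rw [hI]
        ring
      · simp only [thX_smul]
        rw [Finset.prod_mul_distrib]
        have h4 := prod_zx z w I (h1 I hI) (h2 I hI)
        unfold zx at h4
        rw [h4]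
        ring
    rw [h3, Complex.re_ofReal_mul]

lemma cnt_star (τ : ℂ ≃+* ℂ) (I : κ → Wt X ℂ) :
    cnt (τ.trans starRingAut) I = Fintype.card κ - cnt τ I := by
  unfold cnt
  simp only [ind_star]
  rw [Finset.sum_sub_distrib]
  simp

/-- de Rham-Betti classes are Hodge classes -/
theorem hodge_of_drb (P : Periods) (det : P.Det) (hX : ∀ i, IsAbelian (X.factor i).E) (w : ℤ)
    (f : MultilinearMap ℚ (fun _ : κ => X.H1) ℚ) (hf : IsDRB P X w f) :
    IsHodgeTensor X w f := by
  classical
  obtain ⟨b, halg, hb, hτ⟩ := exists_coeff f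
  obtain ⟨c, hc, hcv⟩ := hf
  have hpi : ((2 * Real.pi * Complex.I : ℂ) ^ w) ≠ 0 := zpow_ne_zero _ two_pi_ne
  have h1 : (fun I => (2 * Real.pi * Complex.I : ℂ) ^ w * b I) =
      fun I => c I * ∏ l, P.per (X.factor (I l).1) (I l).2 := by
    refine coeff_unique fun v => ?_
    have h2 := hcv v
    rw [hb v, Finset.mul_sum] at h2
    simp only [Finset.prod_mul_distrib] at h2
    calc ∑ I, (2 * Real.pi * Complex.I : ℂ) ^ w * b I * ∏ l, (I l).2 (v l (I l).1) =
        ∑ I, (2 * Real.pi * Complex.I : ℂ) ^ w * (b I * ∏ l, (I l).2 (v l (I l).1)) :=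
          Finset.sum_congr rfl fun I _ => by ring
      _ = _ := h2
      _ = _ := Finset.sum_congr rfl fun I _ => by ring
  have h2 : ∀ I, b I ≠ 0 → ∑ l, (1 : ℤ) • P.c (X.factor (I l).1) (I l).2 = w • tp := by
    intro I hI
    have h3 : (2 * Real.pi * Complex.I : ℂ) ^ w * b I =
        c I * ∏ l, P.per (X.factor (I l).1) (I l).2 := congrFun h1 I
    have hp : ∀ l ∈ (Finset.univ : Finset κ), P.per (X.factor (I l).1) (I l).2 ≠ 0 :=
      fun l _ => P.per_ne_zero _ _
    have hprod := Finset.prod_ne_zero_iff.2 hp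
    have hcI : c I ≠ 0 := by
      intro h0
      rw [h0, zero_mul] at h3
      exact mul_ne_zero hpi hI h3
    have h4 := congrArg cl h3
    rw [cl_mul hpi hI, cl_mul hcI hprod, cl_zpow two_pi_ne, (cl_eq_zero hI).2 (halg I),
      (cl_eq_zero hcI).2 (hc I), add_zero, zero_add, cl_prod _ _ hp] at h4
    simp only [one_zsmul]
    exact h4.symm
  have h3 : ∀ I, b I ≠ 0 → ∀ τ, cnt τ I = w := by
    intro I hI τ
    have h4 := main P det (fun l => X.factor (I l).1) (fun l => hX _) (fun l => (I l).2)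
      (fun _ => 1) w (fun τ' => h2 (actI τ' I) (by
        rw [hτ]
        exact fun h0 => hI ((map_eq_zero_iff τ' τ'.injective).1 h0))) τ
    simpa [cnt] using h4
  refine hodge_of_cnt f w b hb (fun I hI => h3 I hI _) fun I hI => ?_
  have h4 := h3 I hI (RingEquiv.refl ℂ)
  have h5 := h3 I hI ((RingEquiv.refl ℂ).trans starRingAut)
  rw [cnt_star] at h5
  omega

/-- the coefficients of a Hodge class are balanced -/
theorem cnt_of_hodge (w : ℤ) (f : MultilinearMap ℚ (fun _ : κ => X.H1) ℚ)
    (hf : IsHodgeTensor X w f) (b : (κ → Wt X ℂ) → ℂ)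
    (hb : ∀ v : κ → X.H1, ((f v : ℚ) : ℂ) = ∑ I, b I * ∏ l, (I l).2 (v l (I l).1))
    (I : κ → Wt X ℂ) (hI : b I ≠ 0) : cnt (RingEquiv.refl ℂ) I = w := by
  classical
  obtain ⟨ψ, hψ1, hψ2⟩ := hf
  have h1 := balanced_of_type (E := fun i => (X.factor i).E) (Φ := fun i => (X.factor i).Φ)
    (fun i : X.I => i) (fun i => (X.factor i).isCMType) b ψ (by
    intro v
    have h2 := hψ1 v
    have h3 : ((ψ (fun l => X.per (v l)) : ℝ) : ℂ) = ((f v : ℚ) : ℂ) := by
      rw [h2]
      push_cast
      rfl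
    refine Eq.trans h3 ?_
    rw [hb v]
    rfl) (by
    intro z hz u
    have hz0 : z ≠ 0 := by
      rintro rfl
      simp at hz
    rw [hψ2 z hz0 u, Complex.normSq_eq_norm_sq, hz]
    simp) I hI
  -- the form does not vanish
  have h2 : ∃ v : κ → X.H1, f v ≠ 0 := by
    by_contra hcon
    push Not at hcon
    have h3 : b = fun _ => 0 := by
      refine coeff_unique fun v => ?_
      rw [← hb v, hcon v]
      simp
    exact hI (congrFun h3 I)
  obtain ⟨v, hv⟩ := h2
  have h3 : ψ (fun l => X.per (v l)) ≠ 0 := by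
    rw [hψ1]
    exact_mod_cast hv
  have h4 := hψ2 2 two_ne_zero (fun l => X.per (v l))
  have h5 : ψ (fun l => (2 : ℂ) • X.per (v l)) =
      (2 : ℝ) ^ Fintype.card κ * ψ (fun l => X.per (v l)) := by
    have h6 := ψ.map_smul_univ (fun _ => (2 : ℝ)) (fun l => X.per (v l))
    rw [Finset.prod_const, Finset.card_univ, smul_eq_mul] at h6
    rw [← h6]
    congr 1
  rw [h5] at h4
  have h6 := mul_right_cancel₀ h3 h4
  have h7 : (2 : ℝ) ^ (Fintype.card κ : ℤ) = (2 : ℝ) ^ (2 * w) := by
    rw [zpow_natCast, h6, zpow_mul]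
    norm_num [Complex.normSq_apply]
  have h8 : (Fintype.card κ : ℤ) = 2 * w :=
    zpow_right_injective₀ (by norm_num) (by norm_num) h7
  have h9 : ∑ l, (if (I l).2 ∈ (X.factor (I l).1).Φ then (1 : ℤ) else -1) =
      2 * cnt (RingEquiv.refl ℂ) I - Fintype.card κ := by
    unfold cnt
    rw [Finset.mul_sum, ← Finset.card_univ, Finset.card_eq_sum_ones, Nat.cast_sum,
      ← Finset.sum_sub_distrib]
    refine Finset.sum_congr rfl fun l _ => ?_
    by_cases h : (I l).2 ∈ (X.factor (I l).1).Φ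
    · have h' : ind (X.factor (I l).1) (RingEquiv.refl ℂ) (I l).2 = 1 := by
        unfold ind
        exact if_pos h
      rw [if_pos h, h']
      norm_num
    · have h' : ind (X.factor (I l).1) (RingEquiv.refl ℂ) (I l).2 = 0 := by
        unfold ind
        exact if_neg h
      rw [if_neg h, h']
      norm_num
  have h10 : 2 * cnt (RingEquiv.refl ℂ) I - Fintype.card κ = 0 := by
    rw [← h9]
    exact h1
  omega

end

end Pool.Agent.W519.G
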