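import Mathlib
import Pool.Agent.W519.G.Tens
import Pool.Agent.W547.KB.Hodge

/-!
# The equivalence
-/

set_option autoImplicit false
set_option linter.unusedSectionVars false

namespace Pool.Agent.W519.G

open NumberField Pool.Agent.H204R3.CM Pool.Agent.W547.KB Pool.Agent.W537.PC

noncomputable section

section

variable {X : CMAV} {κ : Type} [Fintype κ] [DecidableEq κ]

/-- Hodge classes are de Rham-Betti classes -/
theorem drb_of_hodge (P : Periods) (w : ℤ) (f : MultilinearMap ℚ (fun _ : κ => X.H1) ℚ)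
    (hf : IsHodgeTensor X w f) : IsDRB P X w f := by
  classical
  obtain ⟨b, halg, hb, hτ⟩ := exists_coeff f
  have h1 : ∀ I, b I ≠ 0 → IsAlgebraic ℚ
      ((∏ l, P.per (X.factor (I l).1) (I l).2) / (2 * Real.pi * Complex.I) ^ w) := by
    intro I hI
    have hp : ∀ l ∈ (Finset.univ : Finset κ), P.per (X.factor (I l).1) (I l).2 ≠ 0 :=
      fun l _ => P.per_ne_zero _ _
    have hprod := Finset.prod_ne_zero_iff.2 hp
    have h2 := rel_int P (fun l => X.factor (I l).1) (fun l => (I l).2) (fun _ => 1) w (by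
      intro τ
      simp only [one_mul]
      change cnt τ I = w
      rw [← cnt_actI]
      refine cnt_of_hodge w f hf b hb _ ?_
      rw [hτ]
      exact fun h0 => hI ((map_eq_zero_iff τ τ.injective).1 h0))
    simp only [one_zsmul] at h2
    rw [← cl_eq_zero (div_ne_zero hprod (zpow_ne_zero _ two_pi_ne)),
      cl_div hprod (zpow_ne_zero _ two_pi_ne), cl_zpow two_pi_ne, cl_prod _ _ hp, sub_eq_zero]
    exact h2
  refine ⟨fun I => b I * ((∏ l, P.per (X.factor (I l).1) (I l).2) /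
    (2 * Real.pi * Complex.I) ^ w)⁻¹, fun I => ?_, fun v => ?_⟩
  · beta_reduce
    by_cases hI : b I = 0
    · rw [hI, zero_mul]
      exact isAlgebraic_zero
    · exact (halg I).mul (h1 I hI).inv
  · rw [hb v, Finset.mul_sum]
    refine Finset.sum_congr rfl fun I _ => ?_
    beta_reduce
    have hprod : (∏ l, P.per (X.factor (I l).1) (I l).2) ≠ 0 :=
      Finset.prod_ne_zero_iff.2 fun l _ => P.per_ne_zero _ _
    rw [Finset.prod_mul_distrib, inv_div]
    field_simp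

end

lemma isAlgebraic_sum {ι : Type*} (s : Finset ι) (F : ι → ℂ) (h : ∀ i ∈ s, IsAlgebraic ℚ (F i)) :
    IsAlgebraic ℚ (∑ i ∈ s, F i) := by
  classical
  induction s using Finset.induction_on with
  | empty => rw [Finset.sum_empty]; exact isAlgebraic_zero
  | insert a s ha ih =>
    rw [Finset.sum_insert ha]
    exact (h a (Finset.mem_insert_self _ _)).add
      (ih fun i hi => h i (Finset.mem_insert_of_mem hi))

/-- the multi-index of an embedding -/
def A2 (B1 B2 : CMPair) {F : Type} [Field F] (φ : B1.E →+* F) (φ' : B2.E →+* F) :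
    Fin 2 → Wt (two B1 B2) F := ![⟨0, φ⟩, ⟨1, φ'⟩]

/-- the other multi-index of an embedding -/
def A2' (B1 B2 : CMPair) {F : Type} [Field F] (φ : B1.E →+* F) (φ' : B2.E →+* F) :
    Fin 2 → Wt (two B1 B2) F := ![⟨1, φ'⟩, ⟨0, φ⟩]

/-- the first component -/
def fst' (B1 B2 : CMPair) (v : (two B1 B2).H1) : B1.E := v 0

/-- the second component -/
def snd' (B1 B2 : CMPair) (v : (two B1 B2).H1) : B2.E := v 1

lemma prod_A2 (B1 B2 : CMPair) (φ : B1.E →+* ℂ) (φ' : B2.E →+* ℂ)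
    (q : Wt (two B1 B2) ℂ → ℂ) (v : Fin 2 → (two B1 B2).H1) :
    ∏ l, (q (A2 B1 B2 φ φ' l) * (A2 B1 B2 φ φ' l).2 (v l (A2 B1 B2 φ φ' l).1)) =
      (q ⟨0, φ⟩ * φ (fst' B1 B2 (v 0))) * (q ⟨1, φ'⟩ * φ' (snd' B1 B2 (v 1))) := by
  rw [Fin.prod_univ_two]
  rfl

lemma prod_A2' (B1 B2 : CMPair) (φ : B1.E →+* ℂ) (φ' : B2.E →+* ℂ)
    (q : Wt (two B1 B2) ℂ → ℂ) (v : Fin 2 → (two B1 B2).H1) :
    ∏ l, (q (A2' B1 B2 φ φ' l) * (A2' B1 B2 φ φ' l).2 (v l (A2' B1 B2 φ φ' l).1)) =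
      (q ⟨1, φ'⟩ * φ' (snd' B1 B2 (v 0))) * (q ⟨0, φ⟩ * φ (fst' B1 B2 (v 1))) := by
  rw [Fin.prod_univ_two]
  rfl

lemma cnt_A2 (B1 B2 : CMPair) (φ : B1.E →+* ℂ) (φ' : B2.E →+* ℂ) (τ : ℂ ≃+* ℂ) :
    cnt τ (A2 B1 B2 φ φ') = ind B1 τ φ + ind B2 τ φ' := by
  unfold cnt
  rw [Fin.sum_univ_two]
  rfl

section

variable {L : Type} [Field L] [NumberField L] [IsCMField L] [IsGalois ℚ L]

/-- the determination of the CM type by the periods, from the case of degree two -/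
theorem det_of_two (P : Periods)
    (h : ∀ A A' : CMPair, IsAbelian A.E → IsAbelian A'.E →
      ∀ f : (two A A').H1 [⋀^Fin 2]→ₗ[ℚ] ℚ, IsDRB P (two A A') 1 f.toMultilinearMap →
        IsHodgeTensor (two A A') 1 f.toMultilinearMap) : P.Det := by
  classical
  intro L _ _ _ hL Φ Ψ hΦ hΨ hper
  have hGal : IsGalois ℚ L := hL.1
  let B1 : CMPair := ⟨L, Φ, hΦ⟩
  let B2 : CMPair := ⟨L, Ψ, hΨ⟩
  let f : (two B1 B2).H1 [⋀^Fin 2]→ₗ[ℚ] ℚ :=
    trForm (1 : L) (A2 B1 B2 (RingHom.id L) ((cc L : L ≃ₐ[ℚ] L) : L →+* L))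
  have hf : ∀ v : Fin 2 → (two B1 B2).H1, ((f v : ℚ) : ℂ) =
      ∑ ψ : L →+* ℂ, (ψ (fst' B1 B2 (v 0)) * cj ψ (snd' B1 B2 (v 1)) -
        cj ψ (snd' B1 B2 (v 0)) * ψ (fst' B1 B2 (v 1))) := by
    intro v
    have h1 : f v = Algebra.trace ℚ L ((fst' B1 B2 (v 0)) * cc L (snd' B1 B2 (v 1)) -
        cc L (snd' B1 B2 (v 0)) * (fst' B1 B2 (v 1))) := by
      change trForm (1 : L) _ v = _
      rw [trForm_apply, one_mul, mono_eq_det, Matrix.det_fin_two]
      rfl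
    rw [h1]
    have h2 := trace_eq_sum_embeddings (K := ℚ) (L := L) ℂ
      (x := (fst' B1 B2 (v 0)) * cc L (snd' B1 B2 (v 1)) -
        cc L (snd' B1 B2 (v 0)) * (fst' B1 B2 (v 1)))
    rw [eq_ratCast] at h2
    rw [h2]
    refine (Fintype.sum_equiv (RingHom.equivRatAlgHom L ℂ) _ _ fun ψ => ?_).symm
    change _ = ψ _
    rw [map_sub, map_mul, map_mul, emb_cc, emb_cc]
    rfl
  let A : (L →+* ℂ) → (Fin 2 → Wt (two B1 B2) ℂ) := fun ψ => A2 B1 B2 ψ (cj ψ)
  let A' : (L →+* ℂ) → (Fin 2 → Wt (two B1 B2) ℂ) := fun ψ => A2' B1 B2 ψ (cj ψ)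
  have hsum : ∀ (k : (L →+* ℂ) → ℂ) (F : (Fin 2 → Wt (two B1 B2) ℂ) → ℂ),
      ∑ I, (∑ ψ, k ψ * ((if I = A ψ then 1 else 0) - (if I = A' ψ then 1 else 0))) * F I =
        ∑ ψ, k ψ * (F (A ψ) - F (A' ψ)) := by
    intro k F
    simp only [Finset.sum_mul]
    rw [Finset.sum_comm]
    refine Finset.sum_congr rfl fun ψ _ => ?_
    simp only [mul_assoc, ← Finset.mul_sum, sub_mul, Finset.sum_sub_distrib, ite_mul, one_mul,
      zero_mul, Finset.sum_ite_eq', Finset.mem_univ, if_true]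
  have hdrb : IsDRB P (two B1 B2) 1 f.toMultilinearMap := by
    refine ⟨fun I => ∑ ψ : L →+* ℂ, (2 * Real.pi * Complex.I) / (P.per B1 ψ * P.per B2 (cj ψ)) *
      ((if I = A ψ then 1 else 0) - (if I = A' ψ then 1 else 0)), fun I => ?_, fun v => ?_⟩
    · refine isAlgebraic_sum _ _ fun ψ _ => ?_
      have hp1 := P.per_ne_zero B1 ψ
      have hp2 := P.per_ne_zero B2 (cj ψ)
      have hp3 := P.per_ne_zero B2 ψ
      refine IsAlgebraic.mul ?_ ?_
      · rw [← cl_eq_zero (div_ne_zero two_pi_ne (mul_ne_zero hp1 hp2)),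
          cl_div two_pi_ne (mul_ne_zero hp1 hp2), cl_mul hp1 hp2]
        have h1 := c_cj P B2 ψ
        have h2 := hper ψ
        rw [← cl_eq_zero (div_ne_zero hp1 hp3), cl_div hp1 hp3] at h2
        change cl (P.per B2 (cj ψ)) = tp - cl (P.per B2 ψ) at h1
        rw [h1, sub_eq_zero.1 h2]
        change tp - _ = 0
        abel
      · split_ifs <;> simp [isAlgebraic_zero, isAlgebraic_one, IsAlgebraic.neg]
    · rw [zpow_one]
      have h1 := hsum (fun ψ => (2 * Real.pi * Complex.I) / (P.per B1 ψ * P.per B2 (cj ψ)))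
        (fun I => ∏ l, (P.per ((two B1 B2).factor (I l).1) (I l).2 * (I l).2 (v l (I l).1)))
      refine Eq.trans ?_ h1.symm
      change (2 * Real.pi * Complex.I) * ((f v : ℚ) : ℂ) = _
      rw [hf v, Finset.mul_sum]
      refine Finset.sum_congr rfl fun ψ _ => ?_
      have h2 := prod_A2 B1 B2 ψ (cj ψ) (fun x => P.per ((two B1 B2).factor x.1) x.2) v
      have h3 := prod_A2' B1 B2 ψ (cj ψ) (fun x => P.per ((two B1 B2).factor x.1) x.2) v

      rw [h2, h3]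
      change _ = (2 * Real.pi * Complex.I) / (P.per B1 ψ * P.per B2 (cj ψ)) *
        (P.per B1 ψ * ψ (fst' B1 B2 (v 0)) * (P.per B2 (cj ψ) * cj ψ (snd' B1 B2 (v 1))) -
          P.per B2 (cj ψ) * cj ψ (snd' B1 B2 (v 0)) * (P.per B1 ψ * ψ (fst' B1 B2 (v 1))))
      have hp1 := P.per_ne_zero B1 ψ
      have hp2 := P.per_ne_zero B2 (cj ψ)
      field_simp
  have hhodge := h B1 B2 hL hL f hdrb
  ext ψ
  have hcnt := cnt_of_hodge 1 f.toMultilinearMap hhodge
    (fun I => ∑ ψ : L →+* ℂ, (1 : ℂ) * ((if I = A ψ then 1 else 0) - (if I = A' ψ then 1 else 0)))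
    (by
      intro v
      rw [hsum (fun _ => 1)]
      change ((f v : ℚ) : ℂ) = _
      rw [hf v]
      refine Finset.sum_congr rfl fun ψ _ => ?_
      have h2 := prod_A2 B1 B2 ψ (cj ψ) (fun _ => 1) v
      have h3 := prod_A2' B1 B2 ψ (cj ψ) (fun _ => 1) v
      simp only [one_mul] at h2 h3 ⊢
      rw [h2, h3]) (A ψ) (by

      have hinj : ∀ ψ', (A ψ = A ψ') ↔ ψ = ψ' := by
        intro ψ'
        constructor
        · intro h0
          have h1 := congrFun h0 0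
          exact eq_of_heq (Sigma.mk.inj h1).2
        · rintro rfl
          rfl
      have hne : ∀ ψ', A ψ ≠ A' ψ' := by
        intro ψ' h0
        have h1 := congrArg Sigma.fst (congrFun h0 0)
        exact absurd h1 (by
          change ¬ ((0 : Fin 2) = 1)
          decide)
      simp only [hinj, hne, if_false, sub_zero, one_mul, Finset.sum_ite_eq, Finset.mem_univ,
        if_true]
      exact one_ne_zero)
  rw [cnt_A2, ind_cj] at hcnt
  have h1 : ind B1 (RingEquiv.refl ℂ) ψ = 1 ↔ ψ ∈ Φ := by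
    unfold ind
    by_cases h2 : ψ ∈ Φ
    · have h3 : ((RingEquiv.refl ℂ : ℂ ≃+* ℂ) : ℂ →+* ℂ).comp ψ ∈ B1.Φ := h2
      rw [if_pos h3]
      exact ⟨fun _ => h2, fun _ => rfl⟩
    · have h3 : ((RingEquiv.refl ℂ : ℂ ≃+* ℂ) : ℂ →+* ℂ).comp ψ ∉ B1.Φ := h2
      rw [if_neg h3]
      exact ⟨fun h4 => absurd h4 zero_ne_one, fun h4 => absurd h4 h2⟩
  have h2 : ind B2 (RingEquiv.refl ℂ) ψ = 1 ↔ ψ ∈ Ψ := by
    unfold ind
    by_cases h2 : ψ ∈ Ψ
    · have h3 : ((RingEquiv.refl ℂ : ℂ ≃+* ℂ) : ℂ →+* ℂ).comp ψ ∈ B2.Φ := h2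
      rw [if_pos h3]
      exact ⟨fun _ => h2, fun _ => rfl⟩
    · have h3 : ((RingEquiv.refl ℂ : ℂ ≃+* ℂ) : ℂ →+* ℂ).comp ψ ∉ B2.Φ := h2
      rw [if_neg h3]
      exact ⟨fun h4 => absurd h4 zero_ne_one, fun h4 => absurd h4 h2⟩
  rw [← h1, ← h2]
  constructor
  · intro h3
    linarith
  · intro h3
    linarith

end

/-- the equivalence -/
theorem tensors_iff (P : Periods) :
    (∀ X : CMAV, (∀ i, IsAbelian (X.factor i).E) → ∀ (n : ℕ) (w : ℤ)
      (f : MultilinearMap ℚ (fun _ : Fin n => X.H1) ℚ), IsDRB P X w f ↔ IsHodgeTensor X w f) ↔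
    (∀ A A' : CMPair, IsAbelian A.E → IsAbelian A'.E →
      ∀ f : (two A A').H1 [⋀^Fin 2]→ₗ[ℚ] ℚ, IsDRB P (two A A') 1 f.toMultilinearMap →
        IsHodgeTensor (two A A') 1 f.toMultilinearMap) := by
  constructor
  · intro h A A' hA hA' f hf
    refine (h (two A A') ?_ 2 1 f.toMultilinearMap).1 hf
    intro i
    fin_cases i
    · exact hA
    · exact hA'
  · intro h X hX n w f
    exact ⟨hodge_of_drb P (det_of_two P h) hX w f, drb_of_hodge P w f⟩

end

end Pool.Agent.W519.G
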