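import Mathlib
import Pool.Agent.W519.G.Chr
import Pool.Agent.W519.G.Final

/-!
# The groups of the de Rham-Betti realization and the Mumford-Tate groups
-/

set_option autoImplicit false
set_option linter.unusedSectionVars false

namespace Pool.Agent.W519.G

open NumberField Pool.Agent.H204R3.CM Pool.Agent.W547.KB Pool.Agent.W537.PC

noncomputable section

variable {X : CMAV}

/-- the action on the index set -/
def actW (τ : ℂ ≃+* ℂ) : Wt X ℂ ≃ Wt X ℂ where
  toFun x := ⟨x.1, (τ : ℂ →+* ℂ).comp x.2⟩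
  invFun x := ⟨x.1, (τ.symm : ℂ →+* ℂ).comp x.2⟩
  left_inv x := by
    refine Sigma.ext rfl (heq_of_eq ?_)
    ext y
    exact τ.symm_apply_apply _
  right_inv x := by
    refine Sigma.ext rfl (heq_of_eq ?_)
    ext y
    exact τ.apply_symm_apply _

lemma monomial_conj (P : Periods) (τ : ℂ ≃+* ℂ) (n : Chars X) :
    monomial P (conjChar τ n) =
      ∏ x : Wt X ℂ, P.per (X.factor x.1) ((τ : ℂ →+* ℂ).comp x.2) ^ n x := by
  unfold monomial
  rw [← Equiv.prod_comp (actW τ)]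
  refine Finset.prod_congr rfl fun x _ => ?_
  have h : conjChar τ n (actW τ x) = n x := by
    unfold conjChar
    congr 1
    exact (actW τ).symm_apply_apply x
  rw [h]
  rfl

lemma monomial_ne (P : Periods) (n : Chars X) : monomial P n ≠ 0 :=
  Finset.prod_ne_zero_iff.2 fun _ _ => zpow_ne_zero _ (P.per_ne_zero _ _)

lemma cl_monomial_conj (P : Periods) (τ : ℂ ≃+* ℂ) (n : Chars X) :
    cl (monomial P (conjChar τ n)) =
      ∑ x : Wt X ℂ, n x • P.c (X.factor x.1) ((τ : ℂ →+* ℂ).comp x.2) := by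
  rw [monomial_conj, cl_prod _ _ fun _ _ => zpow_ne_zero _ (P.per_ne_zero _ _)]
  exact Finset.sum_congr rfl fun x _ => cl_zpow (P.per_ne_zero _ _) _

open Classical in
lemma sum_conj (τ : ℂ ≃+* ℂ) (n : Chars X) :
    (∑ x : Wt X ℂ, (if x.2 ∈ (X.factor x.1).Φ then conjChar τ n x else 0)) =
      ∑ x : Wt X ℂ, n x * ind (X.factor x.1) τ x.2 := by
  rw [← Equiv.sum_comp (actW τ)]
  refine Finset.sum_congr rfl fun x _ => ?_
  have h : conjChar τ n (actW τ x) = n x := by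
    unfold conjChar
    congr 1
    exact (actW τ).symm_apply_apply x
  rw [h]
  unfold ind
  by_cases h1 : (τ : ℂ →+* ℂ).comp x.2 ∈ (X.factor x.1).Φ
  · have h2 : (actW τ x).2 ∈ (X.factor (actW τ x).1).Φ := h1
    rw [if_pos h2, if_pos h1, mul_one]
  · have h2 : (actW τ x).2 ∉ (X.factor (actW τ x).1).Φ := h1
    rw [if_neg h2, if_neg h1, mul_zero]

lemma mem_mt (n : Chars X) :
    n ∈ mtChars X ↔ ∀ τ : ℂ ≃+* ℂ, ∑ x : Wt X ℂ, n x * ind (X.factor x.1) τ x.2 = 0 := by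
  unfold mtChars
  refine forall_congr' fun τ => ?_
  rw [← sum_conj]

/-- monomials of characters trivial on the Mumford-Tate group are algebraic -/
theorem mt_sub (P : Periods) (n : Chars X) (hn : n ∈ mtChars X) : n ∈ drbChars P X := by
  rw [mem_mt] at hn
  intro τ
  rw [← cl_eq_zero (monomial_ne P _), cl_monomial_conj]
  have h1 := rel_int P (fun x : Wt X ℂ => X.factor x.1)
    (fun x => (τ : ℂ →+* ℂ).comp x.2) n 0 (by
      intro τ'
      have h2 := hn (τ.trans τ')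
      rw [← h2]
      refine Finset.sum_congr rfl fun x _ => ?_
      congr 1)
  rw [zero_smul] at h1
  exact h1

theorem drb_sub (P : Periods) (det : TypeDetermined P) (hX : ∀ i, IsAbelian (X.factor i).E)
    (n : Chars X) (hn : n ∈ drbChars P X) : n ∈ mtChars X := by
  rw [mem_mt]
  refine main P det (fun x : Wt X ℂ => X.factor x.1) (fun x => hX _) (fun x => x.2) n 0 ?_
  intro τ
  rw [← cl_monomial_conj, zero_smul, cl_eq_zero (monomial_ne P _)]
  exact hn τ

/-- conversely -/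
theorem det_of_groups (P : Periods)
    (h : ∀ X : CMAV, (∀ i, IsAbelian (X.factor i).E) → drbChars P X = mtChars X) :
    TypeDetermined P := by
  classical
  intro L _ _ _ hL Φ Ψ hΦ hΨ hper
  let B1 : CMPair := ⟨L, Φ, hΦ⟩
  let B2 : CMPair := ⟨L, Ψ, hΨ⟩
  ext ψ
  let n : Chars (two B1 B2) := fun x =>
    (if x = (⟨0, ψ⟩ : Wt (two B1 B2) ℂ) then 1 else 0) -
      (if x = (⟨1, ψ⟩ : Wt (two B1 B2) ℂ) then 1 else 0)
  have hne : (⟨0, ψ⟩ : Wt (two B1 B2) ℂ) ≠ ⟨1, ψ⟩ := by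
    intro h0
    exact absurd (congrArg Sigma.fst h0) (by
      change ¬ ((0 : Fin 2) = 1)
      decide)
  have hs : ∀ (M : Type) [AddCommGroup M] (F : Wt (two B1 B2) ℂ → M),
      ∑ x : Wt (two B1 B2) ℂ, n x • F x = F ⟨0, ψ⟩ - F ⟨1, ψ⟩ := by
    intro M _ F
    simp only [n, sub_smul, ite_smul, one_smul, zero_smul, Finset.sum_sub_distrib,
      Finset.sum_ite_eq', Finset.mem_univ, if_true]
  have hn : n ∈ drbChars P (two B1 B2) := by
    intro τ
    rw [← cl_eq_zero (monomial_ne P _), cl_monomial_conj, hs]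
    have hp1 := P.per_ne_zero B1 ((τ : ℂ →+* ℂ).comp ψ)
    have hp2 := P.per_ne_zero B2 ((τ : ℂ →+* ℂ).comp ψ)
    have h1 := hper ((τ : ℂ →+* ℂ).comp ψ)
    rw [← cl_eq_zero (div_ne_zero hp1 hp2), cl_div hp1 hp2] at h1
    exact h1
  rw [h (two B1 B2) (by
    intro i
    fin_cases i
    · exact hL
    · exact hL), mem_mt] at hn
  have h1 := hn (RingEquiv.refl ℂ)
  have h2 := hs ℤ (fun x => ind ((two B1 B2).factor x.1) (RingEquiv.refl ℂ) x.2)
  simp only [smul_eq_mul] at h2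
  rw [h2] at h1
  have h3 : ind B1 (RingEquiv.refl ℂ) ψ = ind B2 (RingEquiv.refl ℂ) ψ := sub_eq_zero.1 h1
  unfold ind at h3
  have e1 : ((RingEquiv.refl ℂ : ℂ ≃+* ℂ) : ℂ →+* ℂ).comp ψ = ψ := by
    ext x
    rfl
  have e2 : (((RingEquiv.refl ℂ : ℂ ≃+* ℂ) : ℂ →+* ℂ).comp ψ ∈ B1.Φ) ↔ ψ ∈ Φ := Iff.rfl
  have e3 : (((RingEquiv.refl ℂ : ℂ ≃+* ℂ) : ℂ →+* ℂ).comp ψ ∈ B2.Φ) ↔ ψ ∈ Ψ := Iff.rfl
  simp only [e2, e3] at h3
  by_cases a : ψ ∈ Φ <;> by_cases b : ψ ∈ Ψ <;> simp_all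

/-- the theorem -/
theorem groups_iff (P : Periods) :
    ((∀ X : CMAV, (∀ i, IsAbelian (X.factor i).E) → drbChars P X = mtChars X) ↔
      TypeDetermined P) ∧
    (TypeDetermined P → ∀ X : CMAV, (∀ i, IsAbelian (X.factor i).E) →
      (algChars P X = mtChars X ↔
        ∀ n ∈ algChars P X, ∀ τ : ℂ ≃+* ℂ, conjChar τ n ∈ algChars P X)) := by
  have h0 : TypeDetermined P → ∀ X : CMAV, (∀ i, IsAbelian (X.factor i).E) →
      drbChars P X = mtChars X := fun det X hX =>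
    Set.Subset.antisymm (fun n hn => drb_sub P det hX n hn) (fun n hn => mt_sub P n hn)
  refine ⟨⟨det_of_groups P, h0⟩, fun det X hX => ⟨fun h n hn τ => ?_, fun h => ?_⟩⟩
  · rw [h] at hn
    exact mt_sub P n hn τ
  · refine Set.Subset.antisymm (fun n hn => ?_) (fun n hn => ?_)
    · rw [← h0 det X hX]
      exact fun τ => h n hn τ
    · have h1 := mt_sub P n hn (RingEquiv.refl ℂ)
      have h2 : conjChar (RingEquiv.refl ℂ) n = n := by
        funext x
        unfold conjChar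
        congr 1
      rw [h2] at h1
      exact h1

end

end Pool.Agent.W519.G
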